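import Pool.Agent.H53.UK.Targets

/-!
# A choice which hits the kernel covers the set by few candidates (row LKU of the board uk)
-/

set_option autoImplicit false

namespace Pool.Agent.H31.UK

open Finset Pool.Agent.H53.UK

theorem pf_LKU : T_LKU := by
  classical
  intro n k ι H d s₀ θ q 𝒦 B R hB hK h1
  unfold LfU
  by_contra hcon
  apply hB
  refine ⟨KerU H d s₀ θ B, hK, h1, ?_⟩
  intro T' hT' hq
  by_contra h2
  push Not at h2
  apply hcon
  refine ⟨T', hT', hq, ?_⟩
  intro x hx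
  rw [Finset.mem_sdiff] at hx
  have h3 : ∃ A : Finset (Fin n), (A, x) ∈ KerU H d s₀ θ B := by
    by_contra h4
    push Not at h4
    apply hx.2
    unfold ErrU
    exact Finset.mem_filter.mpr ⟨hx.1, h4⟩
  obtain ⟨A, hAx⟩ := h3
  obtain ⟨c, hc, hI⟩ := h2 (A, x) hAx
  exact ⟨c, hc, hI.2⟩

end Pool.Agent.H31.UK
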